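import Pool.Agent.Q196.RenormBasis

/-!
# A monotone basis and a norm-one projection cannot always be had together

`B = ℓ⁴ ⊕ ℓ²`, `E = {0} ⊕ ℓ²`, and the basis is `x (2 n) = - e n + 2 f n`,
`x (2 n + 1) = e n - f n`, where `e n`, `f n` are the unit vectors of the two summands.
For every projection `p` onto `E` bounded in an equivalent norm the restriction of `p` to `ℓ⁴` is a
bounded operator `T` from `ℓ⁴` to `ℓ²`, so `T (e n)` has arbitrarily small norm for suitable `n`.
The partial sum operator `s` of length `2 n + 1` maps `f n` to `- e n + 2 f n`, hence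
`p (s (f n)) = 2 f n - T (e n)`, which is about twice as long as `f n` in every equivalent norm.
-/

namespace Pool.Agent.Results.MP_47003a_an.NoSimultaneousRenorming

open Pool.Agent.Q196.PermBasis (IsBasis)
open Pool.Agent.Q196.RenormBasis

theorem result (𝕜 : Type) [RCLike 𝕜] :
    ∃ (B : Type) (_ : NormedAddCommGroup B) (_ : NormedSpace 𝕜 B) (_ : CompleteSpace B)
      (x : ℕ → B) (E : Submodule 𝕜 B),
      IsBasis 𝕜 x ∧ E.ClosedComplemented ∧
      ∀ N : Seminorm 𝕜 B, IsEquivNorm N → ¬ (IsMonotoneFor N x ∧ HasContractiveProjection N E) :=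
  ⟨B 𝕜, inferInstance, inferInstance, inferInstance, x 𝕜, E 𝕜, isBasis_x 𝕜, E_complemented 𝕜,
    fun N hN h => no_renorming 𝕜 N hN h.1 h.2⟩

end Pool.Agent.Results.MP_47003a_an.NoSimultaneousRenorming
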